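import Pool.Agent.helper31.FiidFinal

/-!
# Factor-of-iid solvability of LCL problems does not depend on the base space (amenable groups)

For a finitely generated group `Γ` satisfying Foelner's condition, the class of LCL problems on
`Γ` with a measurable solution on the free part of the Bernoulli shift over a standard
probability space `(X, μ)` is the same for all `(X, μ)` not concentrated on one point.
-/

open MeasureTheory

namespace Pool.Agent.Results.MP_d941c8_lc.BaseIndependence

universe u v w

/-- The special case of the group `ℤⁿ` (not a hand-in, a corollary of `result` below). -/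
theorem zn_case (n : ℕ) {X : Type v} [MeasurableSpace X] [StandardBorelSpace X] (μ : Measure X)
    [IsProbabilityMeasure μ] (hμ : ∀ x, μ {x} ≠ 1)
    {Y : Type w} [MeasurableSpace Y] [StandardBorelSpace Y] (ν : Measure Y)
    [IsProbabilityMeasure ν] (hν : ∀ y, ν {y} ≠ 1) :
    FiidLCL.FIID (Multiplicative (Fin n → ℤ)) μ = FiidLCL.FIID (Multiplicative (Fin n → ℤ)) ν :=
  Fiid.fiid_eq (Fiid.folner_zpow n) μ hμ ν hν

/-- Let `Γ` be a finitely generated group satisfying Foelner's condition (an amenable group) and
let `(X, μ)`, `(Y, ν)` be standard probability spaces, neither of them concentrated on one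
point. Then `FIID(X, μ, Γ) = FIID(Y, ν, Γ)`. -/
theorem result {Γ : Type u} [Group Γ] [Group.FG Γ] (hΓ : FiidLCL.Folner Γ)
    {X : Type v} [MeasurableSpace X] [StandardBorelSpace X] (μ : Measure X)
    [IsProbabilityMeasure μ] (hμ : ∀ x, μ {x} ≠ 1)
    {Y : Type w} [MeasurableSpace Y] [StandardBorelSpace Y] (ν : Measure Y)
    [IsProbabilityMeasure ν] (hν : ∀ y, ν {y} ≠ 1) :
    FiidLCL.FIID Γ μ = FiidLCL.FIID Γ ν :=
  Fiid.fiid_eq hΓ μ hμ ν hν

end Pool.Agent.Results.MP_d941c8_lc.BaseIndependence
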